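import Mathlib
import Pool.Agent.Lib.MP_dc9a2a_an.Density

/-!
# MP_dc9a2a_an: a dense locally finite subgroup of the isometry group of the Gurarij space
-/

set_option autoImplicit false

namespace Pool.Agent.Results.MP_dc9a2a_an.IncreasingUnion

/-- `G` is the Gurarij space: a separable Banach space such that for every `ε > 0`, all
finite-dimensional Banach spaces `E ⊆ F` and every linear isometric embedding `φ : E → G` there is a
linear map `ψ : F → G` extending `φ` with `(1 - ε)‖x‖ ≤ ‖ψ x‖ ≤ (1 + ε)‖x‖`. -/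
structure IsGurarij (G : Type) [NormedAddCommGroup G] [NormedSpace ℝ G] : Prop where
  complete : CompleteSpace G
  separable : TopologicalSpace.SeparableSpace G
  extension : ∀ ε : ℝ, 0 < ε → ∀ (F : Type) [NormedAddCommGroup F] [NormedSpace ℝ F]
    [FiniteDimensional ℝ F] (E : Submodule ℝ F) (φ : E →ₗᵢ[ℝ] G),
      ∃ ψ : F →ₗ[ℝ] G, (∀ x : E, ψ (x : F) = φ x) ∧
        ∀ x : F, (1 - ε) * ‖x‖ ≤ ‖ψ x‖ ∧ ‖ψ x‖ ≤ (1 + ε) * ‖x‖

/-- The topology of pointwise convergence on the group of surjective linear isometries (for linear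
isometries it is the strong operator topology). -/
def strongTopology (G : Type) [NormedAddCommGroup G] [NormedSpace ℝ G] :
    TopologicalSpace (G ≃ₗᵢ[ℝ] G) :=
  TopologicalSpace.induced (fun (g : G ≃ₗᵢ[ℝ] G) (x : G) => g x) Pi.topologicalSpace

/-- Every finitely generated subgroup of `H` is finite. -/
def EveryFGSubgroupFinite {Γ : Type} [Group Γ] (H : Subgroup Γ) : Prop :=
  ∀ K : Subgroup Γ, K ≤ H → K.FG → Finite K

/-- The isometry group of the Gurarij space has a dense subgroup (strong operator topology) which is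
the union of an increasing sequence of finite subgroups; it is countable and locally finite. -/
theorem result (G : Type) [NormedAddCommGroup G] [NormedSpace ℝ G] (hG : IsGurarij G) :
    ∃ (H : Subgroup (G ≃ₗᵢ[ℝ] G)) (L : ℕ → Subgroup (G ≃ₗᵢ[ℝ] G)),
      Monotone L ∧ (∀ n, Finite (L n)) ∧ (∀ g, g ∈ H ↔ ∃ n, g ∈ L n) ∧ Countable H ∧
      EveryFGSubgroupFinite H ∧ @Dense _ (strongTopology G) (H : Set (G ≃ₗᵢ[ℝ] G)) := by
  classical
  have := hG.complete
  have := hG.separable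
  have hG' : Pool.Agent.Lib.MP_dc9a2a_an.GurProp G := by
    intro F _ _ _ E T ε hε
    exact hG.extension ε hε F E T
  obtain ⟨Θ, _, ρ, Lv, hmono, hall, hfin, htask⟩ :=
    Pool.Agent.Lib.MP_dc9a2a_an.construct hG' (TopologicalSpace.denseSeq G)
      (TopologicalSpace.denseRange_denseSeq G)
  have hmono' : Monotone fun n => (Lv n).map ρ := fun m n h => Subgroup.map_mono (hmono h)
  have hmem : ∀ g, g ∈ ρ.range ↔ ∃ n, g ∈ (Lv n).map ρ := by
    intro g
    constructor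
    · rintro ⟨θ, rfl⟩
      obtain ⟨k, hk⟩ := hall θ
      exact ⟨k, θ, hk, rfl⟩
    · rintro ⟨n, θ, _, rfl⟩
      exact ⟨θ, rfl⟩
  have hfin' : ∀ n, Finite ((Lv n).map ρ) := fun n => (hfin n).to_subtype
  refine ⟨ρ.range, fun n => (Lv n).map ρ, hmono', hfin', hmem, ?_, ?_, ?_⟩
  · have h1 : ((ρ.range : Subgroup (G ≃ₗᵢ[ℝ] G)) : Set (G ≃ₗᵢ[ℝ] G)) =
        ⋃ n, (((Lv n).map ρ : Subgroup _) : Set (G ≃ₗᵢ[ℝ] G)) := by
      ext g
      simp only [Set.mem_iUnion, SetLike.mem_coe]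
      exact hmem g
    have h2 : ((ρ.range : Subgroup (G ≃ₗᵢ[ℝ] G)) : Set (G ≃ₗᵢ[ℝ] G)).Countable := by
      rw [h1]
      exact Set.countable_iUnion fun n => (hfin n).countable
    exact h2.to_subtype
  · rintro K hK ⟨S, hS⟩
    have hex : ∀ g : (↑S : Set (G ≃ₗᵢ[ℝ] G)), ∃ k, g.1 ∈ (Lv k).map ρ := by
      rintro ⟨g, hg⟩
      exact (hmem g).1 (hK (hS ▸ Subgroup.subset_closure hg))
    choose k hk using hex
    obtain ⟨M, hM⟩ : ∃ M, ∀ g, k g ≤ M := by
      refine ⟨∑ g, k g, fun g => ?_⟩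
      exact Finset.single_le_sum (f := k) (fun _ _ => Nat.zero_le _) (Finset.mem_univ g)
    have hle : K ≤ (Lv M).map ρ := by
      rw [← hS, Subgroup.closure_le]
      intro g hg
      exact hmono' (hM ⟨g, hg⟩) (hk ⟨g, hg⟩)
    exact (((hfin M).subset hle : (K : Set (G ≃ₗᵢ[ℝ] G)).Finite)).to_subtype
  · letI := strongTopology G
    rw [dense_iff_inter_open]
    rintro U hU ⟨g, hg⟩
    obtain ⟨V, hV, rfl⟩ := hU
    obtain ⟨I, u, hu, hsub⟩ := isOpen_pi_iff.1 hV _ hg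
    have hball : ∀ x : G, ∃ ε : ℝ, 0 < ε ∧ (x ∈ I → Metric.ball (g x) ε ⊆ u x) := by
      intro x
      by_cases hx : x ∈ I
      · obtain ⟨ε, hε, hs⟩ := Metric.isOpen_iff.1 (hu x hx).1 (g x) (hu x hx).2
        exact ⟨ε, hε, fun _ => hs⟩
      · exact ⟨1, one_pos, fun h => absurd h hx⟩
    choose ε hε hs using hball
    obtain ⟨δ, hδ, hδε⟩ : ∃ δ : ℝ, 0 < δ ∧ ∀ x ∈ I, δ ≤ ε x := by
      rcases I.eq_empty_or_nonempty with hI | hI
      · exact ⟨1, one_pos, fun x hx => by rw [hI] at hx; exact absurd hx (by simp)⟩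
      · obtain ⟨x₀, hx₀, hmin⟩ := I.exists_min_image ε hI
        exact ⟨ε x₀, hε x₀, hmin⟩
    obtain ⟨θ, hθ⟩ := Pool.Agent.Lib.MP_dc9a2a_an.dense_group hG'
      (TopologicalSpace.denseRange_denseSeq G) ρ htask g I hδ
    refine ⟨ρ θ, hsub ?_, ⟨θ, rfl⟩⟩
    intro x hx
    apply hs x hx
    rw [Metric.mem_ball, dist_eq_norm]
    exact (hθ x hx).trans_le (hδε x hx)

end Pool.Agent.Results.MP_dc9a2a_an.IncreasingUnion
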